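import Mathlib

set_option autoImplicit false
set_option maxHeartbeats 400000

namespace Pool.Agent.Results.MP_5a34df_al.Three

def col : Fin 3 → Fin 3 → Fin 6 := ![![0, 1, 3], ![4, 2, 5], ![1, 0, 2]]

def op0 : Fin 6 → Fin 6 → Fin 6 := ![![0, 1, 0, 3, 1, 2], ![1, 0, 1, 2, 0, 3], ![0, 1, 2, 0, 4, 5], ![1, 0, 3, 0, 0, 0], ![4, 2, 0, 5, 0, 0], ![2, 4, 5, 0, 0, 0]]

theorem hop : ∀ i j k, op0 (col i j) (col j k) = col i k := by decide

def A0 (K : Type) [Field K] (g : Fin 6) : Submodule K (Matrix (Fin 3) (Fin 3) K) where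
  carrier := {M | ∀ i j, col i j ≠ g → M i j = 0}
  zero_mem' := fun _ _ _ => rfl
  add_mem' := fun {a b} ha hb i j h => by simp [ha i j h, hb i j h]
  smul_mem' := fun c a ha i j h => by simp [ha i j h]

theorem single_mem (K : Type) [Field K] (i j : Fin 3) (c : K) :
    Matrix.single i j c ∈ A0 K (col i j) := by
  intro a b h
  apply Matrix.single_apply_of_ne
  rintro ⟨rfl, rfl⟩
  exact h rfl

theorem single_ne (K : Type) [Field K] (i j : Fin 3) : Matrix.single i j (1 : K) ≠ 0 := by
  intro h
  simpa using congrFun (congrFun h i) j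

theorem mul_ne (K : Type) [Field K] (i j k : Fin 3) : A0 K (col i j) * A0 K (col j k) ≠ ⊥ := by
  intro h
  have := Submodule.mul_mem_mul (single_mem K i j 1) (single_mem K j k 1)
  rw [h, Matrix.single_mul_single_same, mul_one, Submodule.mem_bot] at this
  exact single_ne K i k this

theorem result (K : Type) [Field K] :
    ∃ (n : ℕ) (Γ : Type) (_ : DecidableEq Γ) (A : Γ → Submodule K (Matrix (Fin n) (Fin n) K))
      (op : Γ → Γ → Γ), 1 ≤ n ∧ DirectSum.IsInternal A ∧ (∀ g, A g ≠ ⊥) ∧
      (∀ g h, A g * A h ≠ ⊥ → A g * A h ≤ A (op g h)) ∧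
      ¬ ∃ (G : Type) (_ : Semigroup G) (ι : Γ → G), Function.Injective ι ∧
        ∀ g h, A g * A h ≠ ⊥ → ι (op g h) = ι g * ι h := by
  refine ⟨3, Fin 6, inferInstance, A0 K, op0, by norm_num, ?_, ?_, ?_, ?_⟩
  · apply DirectSum.isInternal_submodule_of_iSupIndep_of_iSup_eq_top
    · intro g
      rw [Submodule.disjoint_def]
      intro M h1 h2
      ext i j
      by_cases h : col i j = g
      · refine Submodule.iSup_induction (motive := fun M => M i j = 0) _ h2 ?_ rfl ?_
        · intro g' x hx
          by_cases hg : g' = g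
          · simp only [hg, ne_eq, not_true_eq_false, iSup_false, Submodule.mem_bot] at hx
            rw [hx]; rfl
          · rw [iSup_pos hg] at hx
            exact hx i j (h ▸ Ne.symm hg)
        · intro x y hx hy
          simp [hx, hy]
      · exact h1 i j h
    · rw [eq_top_iff]
      intro M _
      rw [Matrix.matrix_eq_sum_single M]
      exact Submodule.sum_mem _ fun i _ => Submodule.sum_mem _ fun j _ =>
        Submodule.mem_iSup_of_mem (col i j) (single_mem K i j _)
  · intro g h
    obtain ⟨i, j, rfl⟩ := (by decide : ∀ g, ∃ i j, col i j = g) g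
    have := single_mem K i j 1
    rw [h, Submodule.mem_bot] at this
    exact single_ne K i j this
  · intro g h _
    rw [Submodule.mul_le]
    intro M hM N hN i k hik
    rw [Matrix.mul_apply]
    refine Finset.sum_eq_zero fun j _ => ?_
    by_cases h1 : col i j = g
    · by_cases h2 : col j k = h
      · exact absurd (by rw [← h1, ← h2, hop]) hik
      · rw [hN j k h2, mul_zero]
    · rw [hM i j h1, zero_mul]
  · rintro ⟨G, _, ι, hι, h⟩
    have k : ∀ i j k, ι (col i k) = ι (col i j) * ι (col j k) := fun i j k => by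
      rw [← h _ _ (mul_ne K i j k), hop]
    have e1 : ι 2 = ι 1 * ι 3 := k 2 0 2
    have e2 : ι 1 = ι 0 * ι 1 := k 0 0 1
    have e3 : ι 0 = ι 0 * ι 2 := k 2 1 1
    have : ι 0 = ι 2 := by rw [e3, e1, ← mul_assoc, ← e2]
    exact absurd (hι this) (by decide)

end Pool.Agent.Results.MP_5a34df_al.Three
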